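import Pool.Agent.H961R2.Lev.Stubs

set_option autoImplicit false

open MeasureTheory Set Filter Topology InnerProductSpace Complex

namespace H961Lev

theorem T1_nonneg {E : Set ℝ} {U : ℂ → ℝ} (hU : IsLevin E U) (z : ℂ) : 0 ≤ U z := by
  by_cases h : z ∈ ((fun x : ℝ => (x : ℂ)) '' E)
  · obtain ⟨x, hx, rfl⟩ := h
    exact (hU.zero x hx).ge
  · exact (hU.pos z h).le

theorem T1_posHalf {E : Set ℝ} {U : ℂ → ℝ} (hU : IsLevin E U) : PosHalf U := by
  refine ⟨hU.cont.continuousOn, ?_, fun z _ => T1_nonneg hU z⟩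
  intro z hz
  refine hU.harm z ?_
  rintro ⟨x, -, rfl⟩
  simp at hz

theorem T_T1 : S_H1 → S_P6 → S_T1 := by
  intro h1 h6 δ E U a hδ hRD hU
  refine ⟨⟨?_, ?_⟩, ⟨?_, ?_, ?_, ?_, ?_, ?_⟩⟩
  · exact hRD.1.preimage (continuous_id.add continuous_const)
  · intro b
    have h2 : {x : ℝ | x + a ∈ E} ∩ Icc b (b + 1) =
        (fun x : ℝ => x + a) ⁻¹' (E ∩ Icc (b + a) (b + a + 1)) := by
      ext x
      simp only [mem_inter_iff, mem_ofPred_eq, mem_Icc, mem_preimage]
      constructor
      · rintro ⟨h3, h4, h5⟩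
        exact ⟨h3, by linarith, by linarith⟩
      · rintro ⟨h3, h4, h5⟩
        exact ⟨h3, by linarith, by linarith⟩
    rw [h2, measure_preimage_add_right]
    exact hRD.2 (b + a)
  · exact hU.cont.comp (continuous_id.add continuous_const)
  · intro x hx
    have h2 := hU.zero (x + a) hx
    rwa [Complex.ofReal_add] at h2
  · intro z hz
    refine hU.pos (z + a) ?_
    rintro ⟨x, hx, h2⟩
    refine hz ⟨x - a, ?_, ?_⟩
    · show x - a + a ∈ E
      rwa [sub_add_cancel]
    · simp only at h2 ⊢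
      rw [Complex.ofReal_sub, h2, add_sub_cancel_right]
  · intro z hz
    refine h1.1 U (fun w => w + a) z ?_ ?_
    · exact analyticAt_id.add analyticAt_const
    · refine hU.harm (z + a) ?_
      rintro ⟨x, hx, h2⟩
      refine hz ⟨x - a, ?_, ?_⟩
      · show x - a + a ∈ E
        rwa [sub_add_cancel]
      · simp only at h2 ⊢
        rw [Complex.ofReal_sub, h2, add_sub_cancel_right]
  · intro z
    have h2 : (starRingEnd ℂ) z + (a : ℂ) = (starRingEnd ℂ) (z + a) := by
      rw [map_add, Complex.conj_ofReal]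
    rw [h2, hU.symm]
  · have h2 := (h6 U 1 (T1_posHalf hU) hU.norm zero_le_one).2
    have hc : Tendsto (fun y : ℝ => 1 + |a| / y + |a| ^ 2 / y ^ 2) atTop (𝓝 1) := by
      have h3 : Tendsto (fun y : ℝ => |a| / y) atTop (𝓝 0) := tendsto_const_nhds.div_atTop tendsto_id
      have h4 : Tendsto (fun y : ℝ => |a| ^ 2 / y ^ 2) atTop (𝓝 0) :=
        tendsto_const_nhds.div_atTop (tendsto_pow_atTop two_ne_zero)
      simpa using (tendsto_const_nhds.add h3).add h4
    have hlo : Tendsto (fun y : ℝ => (U (y * I) / y) / (1 + |a| / y + |a| ^ 2 / y ^ 2)) atTop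
        (𝓝 1) := by
      have h5 := hU.norm.div hc one_ne_zero
      rw [div_one] at h5
      exact h5
    have hhi : Tendsto (fun y : ℝ => (1 + |a| / y + |a| ^ 2 / y ^ 2) * (U (y * I) / y)) atTop
        (𝓝 1) := by
      have := hc.mul hU.norm
      simpa using this
    refine tendsto_of_tendsto_of_tendsto_of_le_of_le' hlo hhi ?_ ?_
    · filter_upwards [eventually_gt_atTop (0 : ℝ)] with y hy
      have h3 := h2 a 0 |a| y hy (by simp)
      have hpos : 0 < 1 + |a| / y + |a| ^ 2 / y ^ 2 := by positivity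
      rw [div_le_iff₀ hpos]
      have e1 : ((0 : ℝ) : ℂ) + y * I = y * I := by simp
      have e2 : (a : ℂ) + y * I = y * I + a := add_comm _ _
      rw [e1, e2] at h3
      have h4 : U (y * I) / y ≤ ((1 + |a| / y + |a| ^ 2 / y ^ 2) * U (y * I + a)) / y :=
        div_le_div_of_nonneg_right h3 hy.le
      calc U (y * I) / y ≤ ((1 + |a| / y + |a| ^ 2 / y ^ 2) * U (y * I + a)) / y := h4
        _ = U (y * I + a) / y * (1 + |a| / y + |a| ^ 2 / y ^ 2) := by ring
    · filter_upwards [eventually_gt_atTop (0 : ℝ)] with y hy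
      have h3 := h2 0 a |a| y hy (by simp)
      have e1 : ((0 : ℝ) : ℂ) + y * I = y * I := by simp
      have e2 : (a : ℂ) + y * I = y * I + a := add_comm _ _
      rw [e1, e2] at h3
      have h4 : U (y * I + a) / y ≤ ((1 + |a| / y + |a| ^ 2 / y ^ 2) * U (y * I)) / y :=
        div_le_div_of_nonneg_right h3 hy.le
      calc U (y * I + a) / y ≤ ((1 + |a| / y + |a| ^ 2 / y ^ 2) * U (y * I)) / y := h4
        _ = (1 + |a| / y + |a| ^ 2 / y ^ 2) * (U (y * I) / y) := by ring

end H961Lev
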